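import Pool.Agent.helper60.MW.Spec

/-!
# Project MW, row CNT: counting for one motion
-/

set_option autoImplicit false

namespace Pool.Agent.MW

open MeasureTheory Set Pool.Agent.helper17.Worm

/-- a product of counting factors -/
theorem CNT_prod {ι : Type} [Fintype ι] [DecidableEq ι] (k B : ℕ) (hk : 1 ≤ k) (hB : 1 ≤ B)
    (Bad : Finset ι) (hBad : B ≤ Bad.card) (N : ι → ℝ) (D : ι → ℝ) (Q r t : ℝ) (hQ : 0 ≤ Q)
    (hr0 : 0 ≤ r) (hr1 : r ≤ 1) (ht : 0 < t) (hN0 : ∀ i, 0 ≤ N i) (hD0 : ∀ i, 0 ≤ D i)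
    (hNQ : ∀ i, N i ≤ Q) (hND : ∀ i, N i ≤ Q * (D i / t)) (hNr : ∀ i ∈ Bad, N i ≤ Q * r) :
    ∏ e : ι × Fin k, N e.1 ≤ Q ^ (Fintype.card ι * k) * (r ^ (B * k - 1) * (1 / t) * ∑ i, D i) := by
  have hBne : Bad.Nonempty := by
    rw [← Finset.card_pos]; omega
  obtain ⟨i0, hi0⟩ := hBne
  let e0 : ι × Fin k := (i0, ⟨0, hk⟩)
  have h1 : ∏ e : ι × Fin k, N e.1 ≤ ∏ e : ι × Fin k, (Q * (if e = e0 then D i0 / t else
      if e.1 ∈ Bad then r else 1)) := by
    apply Finset.prod_le_prod
    · intro e _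
      exact hN0 _
    · intro e _
      by_cases he : e = e0
      · rw [if_pos he, he]
        exact hND i0
      · rw [if_neg he]
        by_cases hb : e.1 ∈ Bad
        · rw [if_pos hb]
          exact hNr _ hb
        · rw [if_neg hb, mul_one]
          exact hNQ _
  refine h1.trans ?_
  rw [Finset.prod_mul_distrib, Finset.prod_const, Finset.card_univ, Fintype.card_prod,
    Fintype.card_fin]
  apply mul_le_mul_of_nonneg_left _ (pow_nonneg hQ _)
  rw [← Finset.mul_prod_erase Finset.univ _ (Finset.mem_univ e0), if_pos rfl]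
  have h2 : ∏ e ∈ Finset.univ.erase e0, (if e = e0 then D i0 / t else if e.1 ∈ Bad then r else 1) =
      r ^ (Bad.card * k - 1) := by
    have h3 : ∏ e ∈ Finset.univ.erase e0, (if e = e0 then D i0 / t else if e.1 ∈ Bad then r else 1) =
        ∏ e ∈ Finset.univ.erase e0, (if e.1 ∈ Bad then r else 1) := by
      apply Finset.prod_congr rfl
      intro e he
      rw [if_neg (Finset.ne_of_mem_erase he)]
    rw [h3, Finset.prod_ite, Finset.prod_const, Finset.prod_const_one, mul_one]
    congr 1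
    have h4 : (Finset.univ.erase e0).filter (fun e : ι × Fin k => e.1 ∈ Bad) =
        (Bad ×ˢ (Finset.univ : Finset (Fin k))).erase e0 := by
      ext e
      simp only [Finset.mem_filter, Finset.mem_erase, Finset.mem_univ, and_true, Finset.mem_product]
    rw [h4, Finset.card_erase_of_mem (by rw [Finset.mem_product]; exact ⟨hi0, Finset.mem_univ _⟩),
      Finset.card_product, Finset.card_univ, Fintype.card_fin]
  rw [h2]
  have h5 : r ^ (Bad.card * k - 1) ≤ r ^ (B * k - 1) := by
    apply pow_le_pow_of_le_one hr0 hr1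
    have : B * k ≤ Bad.card * k := Nat.mul_le_mul_right k hBad
    omega
  have h6 : D i0 ≤ ∑ i, D i := Finset.single_le_sum (fun i _ => hD0 i) (Finset.mem_univ i0)
  have h7 : D i0 / t ≤ (∑ i, D i) / t := by gcongr
  calc D i0 / t * r ^ (Bad.card * k - 1) ≤ (∑ i, D i) / t * r ^ (B * k - 1) := by
        apply mul_le_mul h7 h5 (pow_nonneg hr0 _)
        exact div_nonneg (Finset.sum_nonneg fun i _ => hD0 i) ht.le
    _ = r ^ (B * k - 1) * (1 / t) * ∑ i, D i := by ring

open Classical in
/-- **CNT** -/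
theorem CNT (hSPL : SPL_stmt) : CNT_stmt := by
  intro ι _ X hX hfin g k q B p a b s t hk hq hB hb hab hs ht hst hbad
  have hq0 : (0 : ℝ) < q := by exact_mod_cast hq
  have ha : 0 < a := by rw [hab]; positivity
  -- the number of the full subcells
  set n : ι → Finset (Fin q × Fin q) := fun i => Finset.univ.filter (fun xy : Fin q × Fin q =>
    t * b ^ 2 < occ X g (sq (sub (p i) b xy.1 xy.2) b)) with hn
  have h1 : nfull X g p b t k q = ∏ e : ι × Fin k, (n e.1).card := by
    rw [nfull, ← Fintype.card_piFinset (fun e : ι × Fin k => n e.1)]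
    congr 1
    ext S
    rw [Finset.mem_filter, Fintype.mem_piFinset]
    simp only [Finset.mem_univ, true_and, Full, hn, Finset.mem_filter]
  have h2 : ∀ i, ((n i).card : ℝ) * (t * b ^ 2) ≤ occ X g (sq (p i) a) := by
    intro i
    rw [hab, hSPL X hX hfin g (p i) b q hb.le]
    have h3 : ∑ i' ∈ Finset.range q, ∑ j ∈ Finset.range q, occ X g (sq (sub (p i) b i' j) b) =
        ∑ xy : Fin q × Fin q, occ X g (sq (sub (p i) b xy.1 xy.2) b) := by
      rw [Fintype.sum_prod_type, Finset.sum_range]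
      apply Finset.sum_congr rfl
      intro x _
      rw [Finset.sum_range]
    rw [h3]
    calc ((n i).card : ℝ) * (t * b ^ 2) = ∑ xy ∈ n i, t * b ^ 2 := by
          rw [Finset.sum_const, nsmul_eq_mul]
      _ ≤ ∑ xy ∈ n i, occ X g (sq (sub (p i) b xy.1 xy.2) b) := by
          apply Finset.sum_le_sum
          intro xy hxy
          simp only [hn, Finset.mem_filter] at hxy
          exact hxy.2.le
      _ ≤ _ := Finset.sum_le_sum_of_subset_of_nonneg (Finset.subset_univ _)
          (fun xy _ _ => occ_nonneg X g _)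
  have hND : ∀ i, ((n i).card : ℝ) ≤ (q : ℝ) ^ 2 * (occ X g (sq (p i) a) / a ^ 2 / t) := by
    intro i
    have h4 := h2 i
    have h5 : (q : ℝ) ^ 2 * (occ X g (sq (p i) a) / a ^ 2 / t) = occ X g (sq (p i) a) / (t * b ^ 2) := by
      rw [hab]
      field_simp
    rw [h5, le_div_iff₀ (by positivity)]
    exact h4
  have hNQ : ∀ i, ((n i).card : ℝ) ≤ (q : ℝ) ^ 2 := by
    intro i
    have : (n i).card ≤ Fintype.card (Fin q × Fin q) := Finset.card_le_univ _
    rw [Fintype.card_prod, Fintype.card_fin] at this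
    calc ((n i).card : ℝ) ≤ ((q * q : ℕ) : ℝ) := by exact_mod_cast this
      _ = (q : ℝ) ^ 2 := by push_cast; ring
  rw [nbad] at hbad
  have hNr : ∀ i ∈ Finset.univ.filter (fun i => occ X g (sq (p i) a) ≤ s * a ^ 2),
      ((n i).card : ℝ) ≤ (q : ℝ) ^ 2 * (s / t) := by
    intro i hi
    rw [Finset.mem_filter] at hi
    refine (hND i).trans ?_
    apply mul_le_mul_of_nonneg_left _ (by positivity)
    apply div_le_div_of_nonneg_right _ ht.le
    rw [div_le_iff₀ (by positivity)]
    exact hi.2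
  have key := CNT_prod k B hk hB _ hbad (fun i => ((n i).card : ℝ))
    (fun i => occ X g (sq (p i) a) / a ^ 2) ((q : ℝ) ^ 2) (s / t) t (by positivity)
    (div_nonneg hs ht.le) ((div_le_one ht).2 hst) ht (fun i => Nat.cast_nonneg _)
    (fun i => div_nonneg (occ_nonneg X g _) (by positivity)) hNQ hND hNr
  rw [h1]
  push_cast
  rw [pow_mul, Finset.sum_div]
  exact key

end Pool.Agent.MW
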